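import Pool.Agent.Lib.MP_2a01b0_gt.Image

set_option autoImplicit false

/-!
# Property (*) for analytic spaces (in ZFC)

* If all continuous images of an infinite Tychonoff space `X` in `ℝ^ℕ` are analytic and `X` has (*),
  then `X` is Menger.
* If a Tychonoff continuous image of the Baire space has (*), then it is σ-compact.
* A space with a closed copy of the Baire space does not have (*).
-/

namespace Pool.Agent.Results.MP_2a01b0_gt.AnalyticSpaces

open Pool.Agent.Lib.MP_2a01b0_gt

universe u

/-- In ZFC, (*) implies Menger for spaces whose continuous images in `ℝ^ℕ` are analytic, (*) implies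
σ-compact for continuous images of the Baire space, and (*) fails for spaces with a closed copy of
the Baire space. -/
theorem result :
    (∀ (X : Type u) [TopologicalSpace X] [T35Space X] [Infinite X],
      (∀ G : X → ℕ → ℝ, Continuous G → MeasureTheory.AnalyticSet (Set.range G)) →
        SumProp X → Menger X) ∧
    (∀ (X : Type u) [TopologicalSpace X] [T35Space X] [Infinite X] (f : (ℕ → ℕ) → X),
      Continuous f → Function.Surjective f → SumProp X → SigmaCompactSpace X) ∧
    (∀ (X : Type u) [TopologicalSpace X] (e : (ℕ → ℕ) → X),
      Topology.IsClosedEmbedding e → ¬ SumProp X) := by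
  refine ⟨fun X _ _ _ hA hX => menger_of_analytic_images hA ((sumProp_iff X).1 hX),
    fun X _ _ _ f hf hs hX => sigmaCompact_of_sumProp hf hs ((sumProp_iff X).1 hX),
    fun X _ e he hX => not_sumProp_of_closedEmbedding he ((sumProp_iff X).1 hX)⟩

end Pool.Agent.Results.MP_2a01b0_gt.AnalyticSpaces
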