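import Pool.Agent.Lib.MP_2a01b0_gt.CHSide
import Pool.Agent.Lib.MP_2a01b0_gt.UGSide

set_option autoImplicit false

/-!
# Does (*) imply Menger?  The question is independent of ZFC

* Under CH there is a subspace of the Baire space with property (*) which is not Menger.
* If `𝔲 < 𝔤`, then every infinite Tychonoff space with property (*) is Menger.
-/

namespace Pool.Agent.Results.MP_2a01b0_gt.Independence

open Pool.Agent.Lib.MP_2a01b0_gt Cardinal

universe u

/-- Under CH some infinite subspace of the Baire space has (*) and is not Menger; if `𝔲 < 𝔤`, every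
infinite Tychonoff space with (*) is Menger. -/
theorem result :
    (continuum.{0} = aleph 1 →
      ∃ Y : Set (ℕ → ℕ), Infinite Y ∧ SumProp Y ∧ ¬ Menger Y) ∧
    (uNumber < gNumber →
      ∀ (X : Type u) [TopologicalSpace X] [T35Space X] [Infinite X], SumProp X → Menger X) := by
  refine ⟨fun h => ?_, fun h X _ _ _ hX => ug_side h ((sumProp_iff X).1 hX)⟩
  obtain ⟨Y, h1, h2, h3⟩ := ch_side h
  exact ⟨Y, h1, (sumProp_iff Y).2 h2, h3⟩

end Pool.Agent.Results.MP_2a01b0_gt.Independence
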