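import Pool.Agent.Lib.MP_2a01b0_gt.BMain
import Pool.Agent.Lib.MP_2a01b0_gt.UGSide

set_option autoImplicit false

/-!
# Does (*) imply Menger?  Both sides of the independence

(A) In ZFC, with no hypothesis: there is a complete Boolean algebra `B`, adding no new infinite
sequences of ground-model objects, and a `B`-name `Y` for a set of points of the Baire space which
is, with Boolean value one, infinite, has the property (*) and is not Menger. So ZFC does not prove
that every space with (*) is Menger.

(B) If `𝔲 < 𝔤`, then every infinite Tychonoff space with the property (*) is Menger. So ZFC does not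
refute it.
-/

namespace Pool.Agent.Results.MP_2a01b0_gt.IndependenceZFC

open Pool.Agent.Lib.MP_2a01b0_gt

universe u

/-- (A) the negated form of the question holds in `V^B`, for a complete Boolean algebra `B` given in
ZFC; (B) if `𝔲 < 𝔤`, the answer is yes for all infinite Tychonoff spaces. -/
theorem result :
    (∃ (B : Type) (_ : CompleteBooleanAlgebra B), Nontrivial B ∧ NoNewSeq B ∧
      ∃ Y : (ℕ → ℕ) → B, infVal Y = ⊤ ∧ sumVal Y = ⊤ ∧ mengerVal Y = ⊥) ∧
    (uNumber < gNumber →
      ∀ (X : Type u) [TopologicalSpace X] [T35Space X] [Infinite X], SumProp X → Menger X) := by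
  refine ⟨⟨Pool.Agent.Ladder.RO Cnd, inferInstance, ⟨⊥, ⊤, ?_⟩,
    noNewSeq_of_sigma cnd_sigma, Yn, infVal_Yn, sumVal_Yn, mengerVal_Yn⟩,
    fun h X _ _ _ hX => ug_side h ((sumProp_iff X).1 hX)⟩
  intro h
  obtain ⟨p⟩ : Nonempty Cnd := inferInstance
  have h1 : p ∈ (⊤ : Pool.Agent.Ladder.RO Cnd) := Pool.Agent.Ladder.RO.mem_top
  rw [← h] at h1
  exact Pool.Agent.Ladder.RO.mem_bot h1

end Pool.Agent.Results.MP_2a01b0_gt.IndependenceZFC
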